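import Mathlib
import Pool.Agent.Helper9.SK.St

/-!
# Project SK (MP_2d2425_nt), module MAJ: wide major arcs
-/

set_option autoImplicit false

noncomputable section

namespace Pool.Agent.Helper72.SK

open Finset ArithmeticFunction MeasureTheory Filter
open Pool.Agent.Helper9.SK
open Pool.Agent.Helper48.BK (ex th Pz Vz lz gs Sx Apx)

private lemma ex_add_MAJ (s t : ℝ) : ex (s + t) = ex s * ex t := by
  unfold ex
  rw [← Complex.exp_add]
  congr 1
  push_cast
  ring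

private lemma lz_nonneg_MAJ (z n : ℕ) (hV : 0 < Vz z) : 0 ≤ lz z n := by
  unfold lz
  split_ifs
  · positivity
  · exact le_rfl

private lemma lz_le_MAJ (z n : ℕ) (hV : 0 < Vz z) : lz z n ≤ 1 / Vz z := by
  unfold lz
  split_ifs
  · exact le_rfl
  · positivity

private lemma th_bd_MAJ (n N : ℕ) (h : n ≤ N) : 0 ≤ th n ∧ th n ≤ Real.log N := by
  unfold th
  split_ifs with hp
  · refine ⟨Real.log_natCast_nonneg n, ?_⟩
    exact Real.log_le_log (by exact_mod_cast hp.pos) (by exact_mod_cast h)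
  · exact ⟨le_rfl, Real.log_natCast_nonneg N⟩

/-- the difference is small -/
private lemma Dd_MAJ (X z : ℕ) (c : ℝ) (hc : 0 < c) (hz : 2 ≤ z) (hV : c / Real.log z ≤ Vz z)
    (T : ℝ) (h1 : Real.log (8 * X : ℕ) ≤ T) (h2 : Real.log z / c ≤ T) (n : ℕ) :
    Dd X z n ^ 2 ≤ T ^ 2 := by
  have hlz : 0 < Real.log z := Real.log_pos (by exact_mod_cast (by omega : 1 < z))
  have hVp : 0 < Vz z := lt_of_lt_of_le (by positivity) hV
  have hT : 0 ≤ T := le_trans (by positivity) h2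
  unfold Dd
  split_ifs with h
  · have a1 := th_bd_MAJ n (8 * X) h.2
    have a2 := lz_nonneg_MAJ z n hVp
    have a3 : lz z n ≤ T := by
      refine (lz_le_MAJ z n hVp).trans (le_trans ?_ h2)
      rw [div_le_div_iff₀ hVp hc, one_mul]
      rw [div_le_iff₀ hlz] at hV
      linarith
    have a4 : |th n - lz z n| ≤ T := by
      rw [abs_le]
      constructor <;> linarith [a1.1, a1.2]
    rw [← sq_abs]
    exact pow_le_pow_left₀ (abs_nonneg _) a4 2
  · have : (0 : ℝ) ≤ T ^ 2 := by positivity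
    simpa using this

theorem hMAJ (hSpl : StSpl) (hGal : StGal) (hWsm : StWsm) (hVz : Pool.Agent.Helper48.BK.StVz) : StMaj := by
  intro κ hκ1 hκ2 A B
  obtain ⟨X₁, hX₁⟩ := hWsm κ hκ1 hκ2 (A + 2 * B + 3) B
  obtain ⟨c, hc, hV⟩ := hVz
  -- growth
  have hcast : Tendsto (fun X : ℕ => (X : ℝ)) atTop atTop := tendsto_natCast_atTop_atTop
  have hlog : Tendsto (fun X : ℕ => Real.log (X : ℝ)) atTop atTop := Real.tendsto_log_atTop.comp hcast
  have e1 : ∀ᶠ X : ℕ in atTop, (32 : ℝ) ≤ Real.log X := hlog.eventually_ge_atTop 32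
  have e2 : ∀ᶠ X : ℕ in atTop, (B : ℝ) * Real.log (Real.log X) / c ≤ 2 * Real.log X := by
    have h := (Real.isLittleO_log_id_atTop.bound (c := c / (B + 1)) (by positivity))
    have h' := hlog.eventually h
    filter_upwards [h', e1] with X hX hL
    simp only [id, Real.norm_eq_abs] at hX
    have hL0 : 0 < Real.log X := by linarith
    rw [abs_of_pos hL0] at hX
    have h3 := (le_abs_self _).trans hX
    have hB : (0 : ℝ) ≤ B := Nat.cast_nonneg B
    rw [div_le_iff₀ hc]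
    have h4 : (B : ℝ) * Real.log (Real.log X) ≤ B * (c / (B + 1) * Real.log X) :=
      mul_le_mul_of_nonneg_left h3 hB
    have h5 : (B : ℝ) * (c / (B + 1) * Real.log X) = (B / (B + 1)) * (c * Real.log X) := by
      field_simp
    have h6 : (B : ℝ) / (B + 1) ≤ 1 := by
      rw [div_le_one (by positivity)]
      linarith
    have h7 : (0 : ℝ) ≤ c * Real.log X := by positivity
    nlinarith
  have e3 : ∀ᶠ X : ℕ in atTop, Real.log X ^ B ≤ 1 / 4 * (X : ℝ) ^ (2 / 5 : ℝ) := by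
    have h := (isLittleO_log_rpow_rpow_atTop (B : ℝ) (by norm_num : (0 : ℝ) < 2 / 5)).bound
      (c := 1 / 4) (by norm_num)
    have h' := hcast.eventually h
    filter_upwards [h', e1] with X hX hL
    have hL0 : 0 < Real.log X := by linarith
    rw [Real.rpow_natCast, Real.norm_eq_abs, Real.norm_eq_abs, abs_of_nonneg (by positivity),
      abs_of_nonneg (by positivity)] at hX
    exact hX
  obtain ⟨X₂, hX₂⟩ := Filter.eventually_atTop.1 (e1.and (e2.and e3))
  refine ⟨max X₁ X₂, ?_⟩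
  intro X z Q h hX hz2 hzL hQz hh S W δ hS hW hδ hSW hSd
  obtain ⟨hL, hlz, hLB⟩ := hX₂ X (le_trans (le_max_right _ _) hX)
  have hXX₁ : X₁ ≤ X := le_trans (le_max_left _ _) hX
  set L := Real.log X with hLdef
  have hL0 : 0 < L := by linarith
  have hX0 : (0 : ℝ) < X := by
    rcases Nat.eq_zero_or_pos X with h0 | h0
    · exfalso
      rw [hLdef, h0] at hL
      simp at hL
      linarith
    · exact_mod_cast h0
  have hX1 : (1 : ℝ) ≤ X := by
    have : 1 ≤ X := by exact_mod_cast (Nat.pos_of_ne_zero (by rintro rfl; simp at hX0))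
    exact_mod_cast this
  -- `h`
  have hLB1 : (1 : ℝ) ≤ L ^ B := one_le_pow₀ (by linarith)
  have hXk : (X : ℝ) ^ (2 / 5 : ℝ) ≤ (X : ℝ) ^ κ := Real.rpow_le_rpow_of_exponent_le hX1 hκ1.le
  have hhl : (X : ℝ) ^ κ - 1 < h := by
    rw [hh]
    exact Nat.sub_one_lt_floor _
  have hzh : (z : ℝ) < h := by
    have : (4 : ℝ) ≤ (X : ℝ) ^ κ := by linarith
    linarith
  have hh1 : 1 ≤ h := by
    have : (0 : ℝ) < h := lt_of_le_of_lt (Nat.cast_nonneg z) hzh
    exact_mod_cast this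
  have hh0 : (0 : ℝ) < h := by exact_mod_cast hh1
  have hη : (1 : ℝ) / (2 * h) * Q < 1 := by
    rw [one_div, inv_mul_lt_iff₀ (by positivity), mul_one]
    have : (Q : ℝ) ≤ z := by exact_mod_cast hQz
    linarith
  have key := hSpl (8 * X) Q (Dd X z) S W δ (1 / (2 * h)) hS hW hδ (by positivity) hη hSW hSd
  refine key.trans ?_
  -- one arc
  have arc : ∀ q ∈ Icc 1 Q, ∀ a ∈ range (q + 1),
      ∫ β in (-(1 / (2 * (h : ℝ))))..(1 / (2 * h)), ‖Sx (Dd X z) (8 * X) ((a : ℝ) / q + β)‖ ^ 2 ≤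
        3 * X / L ^ (A + 2 * B + 3) := by
    intro q hq a _
    rw [mem_Icc] at hq
    have h2 : 2 * (h : ℝ) * (1 / (2 * h)) ≤ 1 := by
      rw [mul_one_div_cancel (by positivity)]
    have g := hGal (8 * X) h (fun n => (Dd X z n : ℂ) * ex ((n : ℝ) * ((a : ℝ) / q))) (1 / (2 * h))
      hh1 (by positivity) h2
    have w := hX₁ X z h q a hXX₁ hz2 hzL hh hq.1 (hq.2.trans hQz)
    have e : ∀ β : ℝ, Sx (Dd X z) (8 * X) ((a : ℝ) / q + β) =
        ∑ n ∈ Ioc 0 (8 * X), (Dd X z n : ℂ) * ex ((n : ℝ) * ((a : ℝ) / q)) * ex ((n : ℝ) * β) := by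
      intro β
      unfold Sx
      refine Finset.sum_congr rfl fun n _ => ?_
      rw [mul_add, ex_add_MAJ, mul_assoc]
    simp_rw [e]
    refine g.trans ?_
    calc 3 / (h : ℝ) ^ 2 * ∑ k ∈ Icc 1 (8 * X + h),
          ‖∑ n ∈ (Ioc 0 (8 * X)).filter (fun n => k < n + h ∧ n ≤ k),
            (Dd X z n : ℂ) * ex ((n : ℝ) * ((a : ℝ) / q))‖ ^ 2
        ≤ 3 / (h : ℝ) ^ 2 * (X * (h : ℝ) ^ 2 / L ^ (A + 2 * B + 3)) :=
          mul_le_mul_of_nonneg_left w (by positivity)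
      _ = 3 * X / L ^ (A + 2 * B + 3) := by
          field_simp
  have hpos : (0 : ℝ) ≤ 3 * X / L ^ (A + 2 * B + 3) := by positivity
  have hsum : ∑ q ∈ Icc 1 Q, ∑ a ∈ range (q + 1),
      ∫ β in (-(1 / (2 * (h : ℝ))))..(1 / (2 * h)), ‖Sx (Dd X z) (8 * X) ((a : ℝ) / q + β)‖ ^ 2 ≤
        (Q : ℝ) * ((Q : ℝ) + 1) * (3 * X / L ^ (A + 2 * B + 3)) := by
    calc _ ≤ ∑ q ∈ Icc 1 Q, ((Q : ℝ) + 1) * (3 * X / L ^ (A + 2 * B + 3)) := by
          refine Finset.sum_le_sum fun q hq => ?_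
          refine (Finset.sum_le_sum (arc q hq)).trans ?_
          rw [Finset.sum_const, card_range, nsmul_eq_mul]
          have : ((q + 1 : ℕ) : ℝ) ≤ (Q : ℝ) + 1 := by exact_mod_cast Nat.succ_le_succ (mem_Icc.1 hq).2
          exact mul_le_mul_of_nonneg_right this hpos
      _ = (Q : ℝ) * ((Q : ℝ) + 1) * (3 * X / L ^ (A + 2 * B + 3)) := by
          rw [Finset.sum_const, Nat.card_Icc, nsmul_eq_mul, Nat.add_sub_cancel]
          ring
  -- the squares
  have hlog8 : Real.log (8 * X : ℕ) ≤ 2 * L := by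
    push_cast
    rw [Real.log_mul (by norm_num) hX0.ne']
    have : Real.log 8 ≤ 8 := by
      have := Real.log_le_sub_one_of_pos (by norm_num : (0 : ℝ) < 8)
      linarith
    linarith
  have hlogz : Real.log z / c ≤ 2 * L := by
    refine le_trans ?_ hlz
    rw [div_le_div_iff_of_pos_right hc]
    have hz0 : (0 : ℝ) < z := by exact_mod_cast (by omega : 0 < z)
    have := Real.log_le_log hz0 hzL
    rwa [Real.log_pow] at this
  have hsq : ∑ n ∈ Ioc 0 (8 * X), Dd X z n ^ 2 ≤ X * L ^ 3 := by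
    calc ∑ n ∈ Ioc 0 (8 * X), Dd X z n ^ 2 ≤ ∑ n ∈ Ioc 0 (8 * X), (2 * L) ^ 2 :=
          Finset.sum_le_sum fun n _ => Dd_MAJ X z c hc hz2 (hV z hz2) (2 * L) hlog8 hlogz n
      _ = (8 * X) * (2 * L) ^ 2 := by
          rw [Finset.sum_const, Nat.card_Ioc, Nat.sub_zero, nsmul_eq_mul]
          push_cast
          ring
      _ ≤ X * L ^ 3 := by
          have h1 : (0 : ℝ) ≤ X * L ^ 2 := by positivity
          nlinarith [mul_le_mul_of_nonneg_left hL h1]
  -- together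
  have hcount : (Q : ℝ) * ((Q : ℝ) + 1) * (3 * X / L ^ (A + 2 * B + 3)) ≤ X * (1 / L ^ A) := by
    have hQL : (Q : ℝ) ≤ L ^ B := le_trans (by exact_mod_cast hQz) hzL
    have hQ0 : (0 : ℝ) ≤ Q := Nat.cast_nonneg Q
    have h1 : (Q : ℝ) * ((Q : ℝ) + 1) ≤ L ^ B * (2 * L ^ B) :=
      mul_le_mul hQL (by linarith) (by positivity) (by positivity)
    refine (mul_le_mul_of_nonneg_right h1 hpos).trans ?_
    have h2 : L ^ B * (2 * L ^ B) * (3 * X / L ^ (A + 2 * B + 3)) = X * (1 / L ^ A) * (6 / L ^ 3) := by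
      rw [pow_add, pow_add, pow_mul']
      field_simp
      ring
    rw [h2]
    have h3 : 6 / L ^ 3 ≤ 1 := by
      rw [div_le_one (by positivity)]
      nlinarith [pow_le_pow_left₀ (by norm_num : (0 : ℝ) ≤ 32) hL 3]
    exact mul_le_of_le_one_right (by positivity) h3
  calc (δ * W) ^ 2 * ∑ n ∈ Ioc 0 (8 * X), Dd X z n ^ 2 + W ^ 2 * ∑ q ∈ Icc 1 Q, ∑ a ∈ range (q + 1),
      ∫ β in (-(1 / (2 * (h : ℝ))))..(1 / (2 * h)), ‖Sx (Dd X z) (8 * X) ((a : ℝ) / q + β)‖ ^ 2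
      ≤ (δ * W) ^ 2 * (X * L ^ 3) + W ^ 2 * (X * (1 / L ^ A)) :=
        add_le_add (mul_le_mul_of_nonneg_left hsq (by positivity))
          (mul_le_mul_of_nonneg_left (hsum.trans hcount) (by positivity))
    _ = W ^ 2 * X * (δ ^ 2 * L ^ 3 + 1 / L ^ A) := by ring

end Pool.Agent.Helper72.SK
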